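import Mathlib

/-!
# Truncated multiple sums over factorisations, with fixed and growing letters
-/

set_option autoImplicit false

namespace Pool.Agent.TH507.WG

open Finset

/-- the lower bound of the variable of a letter -/
def lo (c : ℕ) (x : ℕ × ℕ) : ℕ := if x.1 = 0 then 1 else c

lemma lo_one (x : ℕ × ℕ) : lo 1 x = 1 := by
  rw [lo]
  split_ifs <;> rfl

/-- `T c [(a_1, b_1), ..., (a_r, b_r)] m K` is the sum of `∏ k_i ^ (-b_i)` over
`m > k_1 > ... > k_r ≥ 1`, `k_i ≥ c` if `a_i ≠ 0`, with `∏ k_i ^ a_i = K` -/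
def T (c : ℕ) : List (ℕ × ℕ) → ℕ → ℕ → ℚ
  | [], _, K => if K = 1 then 1 else 0
  | x :: l, m, K => ∑ j ∈ Ico (lo c x) m,
      if j ^ x.1 ∣ K then T c l j (K / j ^ x.1) / (j : ℚ) ^ x.2 else 0

lemma T_nil (c m K : ℕ) : T c [] m K = if K = 1 then 1 else 0 := by rw [T]

lemma T_cons (c : ℕ) (x : ℕ × ℕ) (l : List (ℕ × ℕ)) (m K : ℕ) :
    T c (x :: l) m K = ∑ j ∈ Ico (lo c x) m,
      if j ^ x.1 ∣ K then T c l j (K / j ^ x.1) / (j : ℚ) ^ x.2 else 0 := by rw [T]

lemma T_nonneg (c : ℕ) (w : List (ℕ × ℕ)) : ∀ m K, 0 ≤ T c w m K := by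
  induction w with
  | nil =>
    intro m K
    rw [T_nil]
    split_ifs <;> norm_num
  | cons x l ih =>
    intro m K
    rw [T_cons]
    refine sum_nonneg fun j _ => ?_
    split_ifs
    · exact div_nonneg (ih _ _) (by positivity)
    · exact le_rfl

lemma T_zero (c : ℕ) (w : List (ℕ × ℕ)) : ∀ m, T c w m 0 = 0 := by
  induction w with
  | nil =>
    intro m
    rw [T_nil, if_neg (by norm_num)]
  | cons x l ih =>
    intro m
    rw [T_cons]
    refine sum_eq_zero fun j _ => ?_
    rw [Nat.zero_div, ih, zero_div, ite_self]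

lemma T_le_pow (w : List (ℕ × ℕ)) : ∀ m K, 1 ≤ m → T 1 w m K ≤ (m : ℚ) ^ w.length := by
  induction w with
  | nil =>
    intro m K _
    rw [T_nil]
    split_ifs <;> simp
  | cons x l ih =>
    intro m K hm
    rw [T_cons, lo_one]
    have h1 : ∀ j ∈ Ico 1 m, (if j ^ x.1 ∣ K then
        T 1 l j (K / j ^ x.1) / (j : ℚ) ^ x.2 else 0) ≤ (m : ℚ) ^ l.length := by
      intro j hj
      rw [mem_Ico] at hj
      have hj1 : (1 : ℚ) ≤ j := by exact_mod_cast hj.1
      split_ifs
      · refine (div_le_self (T_nonneg _ _ _ _) (one_le_pow₀ hj1)).trans ((ih j _ hj.1).trans ?_)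
        have h3 : (j : ℚ) ≤ m := by exact_mod_cast hj.2.le
        exact pow_le_pow_left₀ (by linarith) h3 _
      · positivity
    refine (sum_le_sum h1).trans ?_
    rw [sum_const, Nat.card_Ico, nsmul_eq_mul, List.length_cons, pow_succ, mul_comm]
    have h4 : ((m - 1 : ℕ) : ℚ) ≤ m := by exact_mod_cast Nat.sub_le _ _
    exact mul_le_mul_of_nonneg_left h4 (by positivity)

lemma T_mono (c : ℕ) (w : List (ℕ × ℕ)) {m m' : ℕ} (h : m ≤ m') (K : ℕ) :
    T c w m K ≤ T c w m' K := by
  cases w with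
  | nil => rw [T_nil, T_nil]
  | cons x l =>
    rw [T_cons, T_cons]
    refine sum_le_sum_of_subset_of_nonneg (Ico_subset_Ico_right h) fun j _ _ => ?_
    split_ifs
    · exact div_nonneg (T_nonneg _ _ _ _) (by positivity)
    · exact le_rfl

/-- the first letter grows -/
def HP : List (ℕ × ℕ) → Prop
  | [] => True
  | x :: _ => 1 ≤ x.1

lemma HP_cons (x : ℕ × ℕ) (l : List (ℕ × ℕ)) : HP (x :: l) ↔ 1 ≤ x.1 := Iff.rfl

lemma T_stab (c : ℕ) (w : List (ℕ × ℕ)) (hw : HP w) {m K : ℕ} (h : K + 1 ≤ m) :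
    T c w m K = T c w (K + 1) K := by
  rcases Nat.eq_zero_or_pos K with rfl | hK
  · rw [T_zero, T_zero]
  cases w with
  | nil => rw [T_nil, T_nil]
  | cons x l =>
    rw [T_cons, T_cons]
    symm
    refine sum_subset (Ico_subset_Ico_right h) fun j hj hj' => ?_
    rw [mem_Ico] at hj hj'
    rw [if_neg]
    intro hd
    have h1 := Nat.le_of_dvd hK hd
    have h2 : j ≤ j ^ x.1 := Nat.le_self_pow (Nat.one_le_iff_ne_zero.1 hw) j
    omega

/-- the arithmetic function of a word -/
def cf (c : ℕ) (w : List (ℕ × ℕ)) (K : ℕ) : ℚ := T c w (K + 1) K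

lemma T_le_cf (w : List (ℕ × ℕ)) (hw : HP w) (c m K : ℕ) : T c w m K ≤ cf c w K := by
  rw [cf]
  rcases le_total m (K + 1) with h | h
  · exact T_mono c w h K
  · rw [T_stab c w hw h]

lemma cf_nonneg (c : ℕ) (w : List (ℕ × ℕ)) (K : ℕ) : 0 ≤ cf c w K := T_nonneg _ _ _ _

lemma cf_le (w : List (ℕ × ℕ)) (K : ℕ) (hK : 1 ≤ K) :
    cf 1 w K ≤ 2 ^ w.length * (K : ℚ) ^ w.length := by
  refine (T_le_pow w (K + 1) K (by omega)).trans ?_
  rw [← mul_pow]
  have h1 : (1 : ℚ) ≤ K := by exact_mod_cast hK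
  refine pow_le_pow_left₀ (by positivity) ?_ _
  push_cast
  linarith

lemma T_at_one (c : ℕ) (hc : 1 ≤ c) (w : List (ℕ × ℕ)) (K : ℕ) :
    T c w 1 K = if w = [] then T c [] 2 K else 0 := by
  cases w with
  | nil => rw [if_pos rfl, T_nil, T_nil]
  | cons x l =>
    rw [if_neg (List.cons_ne_nil _ _), T_cons, Ico_eq_empty, sum_empty]
    rw [lo]
    split_ifs <;> omega

lemma sum_map_finset (s : Finset (List (ℕ × ℕ))) (x : ℕ × ℕ) (r : List (ℕ × ℕ) → ℚ)
    (F : List (ℕ × ℕ) → ℚ) : ∑ v ∈ s.image (x :: ·), r v.tail * F v = ∑ v ∈ s, r v * F (x :: v) := by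
  rw [sum_image fun v _ v' _ h => (List.cons.inj h).2]
  rfl

/-- the relation between sums over `k ≥ 1` and over `k ≥ 2` -/
lemma T_one (w : List (ℕ × ℕ)) : ∃ (s : Finset (List (ℕ × ℕ))) (r : List (ℕ × ℕ) → ℚ),
    (∀ v ∈ s, v.length < w.length) ∧ (∀ v ∈ s, v = [] ∨ v.head? = w.head?) ∧
    (∀ v ∈ s, ∀ y ∈ v, y ∈ w) ∧
    ∀ m K, 2 ≤ m → T 1 w m K = T 2 w m K + ∑ v ∈ s, r v * T 2 v m K := by
  induction w with
  | nil =>
    refine ⟨∅, fun _ => 0, by simp, by simp, by simp, fun m K _ => ?_⟩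
    rw [sum_empty, add_zero, T_nil, T_nil]
  | cons x l ih =>
    obtain ⟨s, r, h1, h2, h3, h4⟩ := ih
    -- the constant
    set κ : ℚ := (if x.1 = 0 then - ∑ v ∈ s, r v * (if v = [] then 1 else 0) else
      (if l = [] then 1 else 0)) with hκ
    have hnot : [] ∉ s.image (x :: ·) := by
      intro h
      rw [mem_image] at h
      obtain ⟨v, -, hv⟩ := h
      exact List.cons_ne_nil _ _ hv
    refine ⟨insert [] (s.image (x :: ·)), fun v => if v = [] then κ else r v.tail, ?_, ?_, ?_, ?_⟩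
    · intro v hv
      rcases mem_insert.1 hv with rfl | hv
      · simp
      · obtain ⟨v', hv', rfl⟩ := mem_image.1 hv
        have := h1 v' hv'
        simp only [List.length_cons]
        omega
    · intro v hv
      rcases mem_insert.1 hv with rfl | hv
      · exact Or.inl rfl
      · obtain ⟨v', hv', rfl⟩ := mem_image.1 hv
        exact Or.inr rfl
    · intro v hv y hy
      rcases mem_insert.1 hv with rfl | hv
      · exact absurd hy List.not_mem_nil
      · obtain ⟨v', hv', rfl⟩ := mem_image.1 hv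
        rcases List.mem_cons.1 hy with rfl | hy
        · exact List.mem_cons_self
        · exact List.mem_cons_of_mem _ (h3 v' hv' y hy)
    · intro m K hm
      rw [sum_insert hnot]
      beta_reduce
      rw [if_pos (rfl : ([] : List (ℕ × ℕ)) = [])]
      have e1 : ∑ v ∈ s.image (x :: ·), (if v = [] then κ else r v.tail) * T 2 v m K =
          ∑ v ∈ s, r v * T 2 (x :: v) m K := by
        rw [← sum_map_finset s x r (fun v => T 2 v m K)]
        refine sum_congr rfl fun v hv => ?_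
        rw [if_neg]
        rintro rfl
        exact hnot hv
      rw [e1]
      -- the sums over `j ≥ 2`
      have e2 : ∀ j ∈ Ico 2 m, (if j ^ x.1 ∣ K then
          T 1 l j (K / j ^ x.1) / (j : ℚ) ^ x.2 else 0) =
          (if j ^ x.1 ∣ K then T 2 l j (K / j ^ x.1) / (j : ℚ) ^ x.2 else 0) +
          ∑ v ∈ s, r v * (if j ^ x.1 ∣ K then T 2 v j (K / j ^ x.1) / (j : ℚ) ^ x.2 else 0) := by
        intro j hj
        rw [mem_Ico] at hj
        split_ifs with hd
        · rw [h4 j _ hj.1, add_div, sum_div]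
          congr 1
          exact sum_congr rfl fun v _ => by rw [mul_div_assoc]
        · simp
      have e3 : T 1 (x :: l) m K = (if l = [] then T 2 [] m K else 0) +
          (∑ j ∈ Ico 2 m, (if j ^ x.1 ∣ K then T 2 l j (K / j ^ x.1) / (j : ℚ) ^ x.2 else 0) +
          ∑ v ∈ s, r v * ∑ j ∈ Ico 2 m,
            (if j ^ x.1 ∣ K then T 2 v j (K / j ^ x.1) / (j : ℚ) ^ x.2 else 0)) := by
        rw [T_cons, lo_one, sum_eq_sum_Ico_succ_bot (by omega : 1 < m), one_pow,
          if_pos (one_dvd K), Nat.div_one, Nat.cast_one, one_pow, div_one,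
          T_at_one 1 le_rfl, sum_congr rfl e2, sum_add_distrib, sum_comm]
        simp only [mul_sum, T_nil]
      rw [e3]
      by_cases hx : x.1 = 0
      · -- a fixed letter
        have e4 : ∀ v, T 2 (x :: v) m K = (if v = [] then T 2 [] m K else 0) +
            ∑ j ∈ Ico 2 m, (if j ^ x.1 ∣ K then T 2 v j (K / j ^ x.1) / (j : ℚ) ^ x.2 else 0) := by
          intro v
          rw [T_cons, lo, if_pos hx, sum_eq_sum_Ico_succ_bot (by omega : 1 < m), one_pow,
            if_pos (one_dvd K), Nat.div_one, Nat.cast_one, one_pow, div_one,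
            T_at_one 2 (by norm_num)]
          simp only [T_nil]
        rw [hκ, if_pos hx, e4 l]
        simp only [e4, mul_add, sum_add_distrib, neg_mul, sum_mul]
        have e5 : ∑ v ∈ s, r v * (if v = [] then T 2 [] m K else 0) =
            ∑ v ∈ s, r v * (if v = [] then 1 else 0) * T 2 [] m K := by
          refine sum_congr rfl fun v _ => ?_
          split_ifs
          · rw [mul_one]
          · simp
        rw [e5]
        ring
      · have e4 : ∀ v, T 2 (x :: v) m K =
            ∑ j ∈ Ico 2 m, (if j ^ x.1 ∣ K then T 2 v j (K / j ^ x.1) / (j : ℚ) ^ x.2 else 0) := by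
          intro v
          rw [T_cons, lo, if_neg hx]
        rw [hκ, if_neg hx, e4 l]
        simp only [e4]
        split_ifs
        · ring
        · ring

end Pool.Agent.TH507.WG
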