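import Mathlib
import Pool.Agent.TH507.WG.A

/-!
# Evaluation of the word functions at products of prime powers
-/

set_option autoImplicit false

namespace Pool.Agent.TH507.WG

open Finset
open ArithmeticFunction (cardFactors cardFactors_one cardFactors_mul cardFactors_pow
  cardFactors_apply_prime_pow cardFactors_pos_iff_one_lt cardFactors_eq_one_iff_prime)

/-- the sum of the `a_i` -/
def asum (w : List (ℕ × ℕ)) : ℕ := (w.map Prod.fst).sum

lemma asum_nil : asum [] = 0 := rfl
lemma asum_cons (x : ℕ × ℕ) (l : List (ℕ × ℕ)) : asum (x :: l) = x.1 + asum l := by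
  rw [asum, asum, List.map_cons, List.sum_cons]

/-- the integer `∏ p ^ e` -/
def KQ (Q : List (ℕ × ℕ)) : ℕ := (Q.map fun q => q.1 ^ q.2).prod

lemma KQ_nil : KQ [] = 1 := rfl
lemma KQ_cons (q : ℕ × ℕ) (Q : List (ℕ × ℕ)) : KQ (q :: Q) = q.1 ^ q.2 * KQ Q := by
  rw [KQ, KQ, List.map_cons, List.prod_cons]

/-- the sum of the exponents -/
def esum (Q : List (ℕ × ℕ)) : ℕ := (Q.map Prod.snd).sum

lemma esum_nil : esum [] = 0 := rfl
lemma esum_cons (q : ℕ × ℕ) (Q : List (ℕ × ℕ)) : esum (q :: Q) = q.2 + esum Q := by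
  rw [esum, esum, List.map_cons, List.sum_cons]

/-- lists of prime powers with decreasing primes -/
def DP (Q : List (ℕ × ℕ)) : Prop :=
  (∀ q ∈ Q, q.1.Prime) ∧ (∀ q ∈ Q, 1 ≤ q.2) ∧ Q.Pairwise (fun q r => r.1 < q.1)

lemma DP.tail {q : ℕ × ℕ} {Q : List (ℕ × ℕ)} (h : DP (q :: Q)) : DP Q :=
  ⟨fun r hr => h.1 r (List.mem_cons_of_mem _ hr), fun r hr => h.2.1 r (List.mem_cons_of_mem _ hr),
    (List.pairwise_cons.1 h.2.2).2⟩

lemma KQ_ne {Q : List (ℕ × ℕ)} (hQ : ∀ q ∈ Q, q.1.Prime) : KQ Q ≠ 0 := by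
  induction Q with
  | nil => rw [KQ_nil]; exact one_ne_zero
  | cons q Q ih =>
    rw [KQ_cons]
    exact mul_ne_zero (pow_ne_zero _ (hQ q (List.mem_cons_self)).ne_zero)
      (ih fun r hr => hQ r (List.mem_cons_of_mem _ hr))

lemma KQ_card {Q : List (ℕ × ℕ)} (hQ : ∀ q ∈ Q, q.1.Prime) : cardFactors (KQ Q) = esum Q := by
  induction Q with
  | nil => rw [KQ_nil, esum_nil, cardFactors_one]
  | cons q Q ih =>
    have h1 := hQ q (List.mem_cons_self)
    have h2 := fun r hr => hQ r (List.mem_cons_of_mem q hr)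
    rw [KQ_cons, esum_cons, cardFactors_mul (pow_ne_zero _ h1.ne_zero) (KQ_ne h2), ih h2,
      cardFactors_apply_prime_pow h1]

lemma KQ_prime {Q : List (ℕ × ℕ)} (hQ : ∀ q ∈ Q, q.1.Prime) {r : ℕ} (hr : r.Prime)
    (h : r ∣ KQ Q) : ∃ q ∈ Q, q.1 = r := by
  induction Q with
  | nil =>
    rw [KQ_nil] at h
    exact absurd (Nat.dvd_one.1 h) hr.one_lt.ne'
  | cons q Q ih =>
    rw [KQ_cons] at h
    rcases (Nat.Prime.dvd_mul hr).1 h with h1 | h1
    · exact ⟨q, List.mem_cons_self,
        ((Nat.prime_dvd_prime_iff_eq hr (hQ q List.mem_cons_self)).1 (hr.dvd_of_dvd_pow h1)).symm⟩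
    · obtain ⟨q', h2, h3⟩ := ih (fun r hr => hQ r (List.mem_cons_of_mem _ hr)) h1
      exact ⟨q', List.mem_cons_of_mem _ h2, h3⟩

lemma T_small (w : List (ℕ × ℕ)) : ∀ m K, K ≠ 0 → cardFactors K < asum w → T 2 w m K = 0 := by
  induction w with
  | nil =>
    intro m K _ h
    rw [asum_nil] at h
    omega
  | cons x l ih =>
    intro m K hK h
    rw [T_cons]
    refine sum_eq_zero fun j hj => ?_
    rw [mem_Ico, lo] at hj
    split_ifs with hd
    · obtain ⟨R, rfl⟩ := hd
      by_cases hx : x.1 = 0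
      · have e : j ^ x.1 * R = R := by rw [hx, pow_zero, one_mul]
        rw [e] at h hK ⊢
        rw [hx, pow_zero, Nat.div_one, ih j R hK (by
          rw [asum_cons, hx, zero_add] at h
          exact h), zero_div]
      · rw [if_neg hx] at hj
        have hj0 : j ^ x.1 ≠ 0 := pow_ne_zero _ (by omega)
        have hR : R ≠ 0 := right_ne_zero_of_mul hK
        rw [Nat.mul_div_cancel_left _ (Nat.pos_of_ne_zero hj0), ih j R hR, zero_div]
        rw [cardFactors_mul hj0 hR, asum_cons, cardFactors_pow] at h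
        have h1 : 0 < cardFactors j := cardFactors_pos_iff_one_lt.2 (by omega)
        have h2 : x.1 * 1 ≤ x.1 * cardFactors j := Nat.mul_le_mul_left _ h1
        omega
    · rfl

lemma T_primes (w : List (ℕ × ℕ)) : ∀ m K, T 2 w m K ≠ 0 → ∀ p : ℕ, p.Prime → p ∣ K → p < m := by
  induction w with
  | nil =>
    intro m K h p hp hd
    rw [T_nil] at h
    split_ifs at h with h1
    · subst h1
      exact absurd (Nat.dvd_one.1 hd) hp.one_lt.ne'
    · exact absurd rfl h
  | cons x l ih =>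
    intro m K h p hp hd
    rw [T_cons] at h
    obtain ⟨j, hj, hj2⟩ := exists_ne_zero_of_sum_ne_zero h
    rw [mem_Ico, lo] at hj
    split_ifs at hj2 with hd2
    · obtain ⟨R, rfl⟩ := hd2
      have hj1 : 1 ≤ j := by
        split_ifs at hj <;> omega
      have hj0 : 0 < j ^ x.1 := pow_pos (by omega) _
      rw [Nat.mul_div_cancel_left _ hj0] at hj2
      rcases (Nat.Prime.dvd_mul hp).1 hd with h1 | h1
      · have := Nat.le_of_dvd (by omega) (hp.dvd_of_dvd_pow h1)
        omega
      · have := ih j R (fun h0 => hj2 (by rw [h0, zero_div])) p hp h1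
        omega
    · exact absurd rfl hj2

/-- the value at a tuple of prime powers -/
def E : List (ℕ × ℕ) → List (ℕ × ℕ) → ℕ → ℚ
  | [], [], _ => 1
  | [], _ :: _, _ => 0
  | x :: l, [], m => if x.1 = 0 then ∑ j ∈ Ico 1 m, E l [] j / (j : ℚ) ^ x.2 else 0
  | x :: l, q :: Q, m => if x.1 = 0 then ∑ j ∈ Ico 1 m, E l (q :: Q) j / (j : ℚ) ^ x.2 else
      if x.1 = q.2 ∧ q.1 < m then E l Q q.1 / (q.1 : ℚ) ^ x.2 else 0

lemma E_nil_nil (m : ℕ) : E [] [] m = 1 := by rw [E]
lemma E_nil_cons (q : ℕ × ℕ) (Q : List (ℕ × ℕ)) (m : ℕ) : E [] (q :: Q) m = 0 := by rw [E]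
lemma E_fix (x : ℕ × ℕ) (l Q : List (ℕ × ℕ)) (m : ℕ) (hx : x.1 = 0) :
    E (x :: l) Q m = ∑ j ∈ Ico 1 m, E l Q j / (j : ℚ) ^ x.2 := by
  cases Q with
  | nil => rw [E, if_pos hx]
  | cons q Q => rw [E, if_pos hx]
lemma E_pos_nil (x : ℕ × ℕ) (l : List (ℕ × ℕ)) (m : ℕ) (hx : x.1 ≠ 0) : E (x :: l) [] m = 0 := by
  rw [E, if_neg hx]
lemma E_pos_cons (x : ℕ × ℕ) (l : List (ℕ × ℕ)) (q : ℕ × ℕ) (Q : List (ℕ × ℕ)) (m : ℕ)
    (hx : x.1 ≠ 0) : E (x :: l) (q :: Q) m =
      if x.1 = q.2 ∧ q.1 < m then E l Q q.1 / (q.1 : ℚ) ^ x.2 else 0 := by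
  rw [E, if_neg hx]

/-- **evaluation** -/
theorem T_eval (w : List (ℕ × ℕ)) : ∀ (Q : List (ℕ × ℕ)) (m : ℕ), DP Q → esum Q ≤ asum w →
    T 2 w m (KQ Q) = E w Q m := by
  induction w with
  | nil =>
    intro Q m hQ hs
    rcases Q with _ | ⟨q, Q⟩
    · rw [T_nil, KQ_nil, if_pos rfl, E_nil_nil]
    · rw [esum_cons, asum_nil] at hs
      have := hQ.2.1 q List.mem_cons_self
      omega
  | cons x l ih =>
    intro Q m hQ hs
    by_cases hx : x.1 = 0
    · rw [E_fix x l Q m hx, T_cons, lo, if_pos hx]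
      refine sum_congr rfl fun j _ => ?_
      rw [hx, pow_zero, if_pos (one_dvd _), Nat.div_one, ih Q j hQ (by
        rw [asum_cons, hx, zero_add] at hs
        exact hs)]
    rcases Q with _ | ⟨q, Q⟩
    · rw [KQ_nil, T_cons, E_pos_nil x l m hx, lo, if_neg hx]
      refine sum_eq_zero fun j hj => ?_
      rw [mem_Ico] at hj
      rw [if_neg]
      intro hd
      have h1 := Nat.dvd_one.1 hd
      have h2 : j ≤ j ^ x.1 := Nat.le_self_pow hx j
      omega
    · have hq := hQ.1 q List.mem_cons_self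
      have hQ' := hQ.tail
      have hP1 := (List.pairwise_cons.1 hQ.2.2).1
      have hK' := KQ_ne hQ'.1
      have hK : KQ (q :: Q) ≠ 0 := KQ_ne hQ.1
      have hlt : ∀ r : ℕ, r.Prime → r ∣ KQ Q → r < q.1 := by
        intro r hr hd
        obtain ⟨q', h1, rfl⟩ := KQ_prime hQ'.1 hr hd
        exact hP1 q' h1
      have hqK : ¬ q.1 ∣ KQ Q := fun h => lt_irrefl _ (hlt q.1 hq h)
      have hcard := KQ_card hQ.1
      rw [T_cons, lo, if_neg hx, E_pos_cons x l q Q m hx]
      -- only the term `j = q.1` can be nonzero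
      have hother : ∀ j ∈ Ico 2 m, j ≠ q.1 → (if j ^ x.1 ∣ KQ (q :: Q) then
          T 2 l j (KQ (q :: Q) / j ^ x.1) / (j : ℚ) ^ x.2 else 0) = 0 := by
        intro j hj hjq
        rw [mem_Ico] at hj
        split_ifs with hd
        · by_contra hne
          obtain ⟨R, hR⟩ := hd
          have hj0 : j ^ x.1 ≠ 0 := pow_ne_zero _ (by omega)
          rw [hR, Nat.mul_div_cancel_left _ (Nat.pos_of_ne_zero hj0)] at hne
          have hT : T 2 l j R ≠ 0 := fun h0 => hne (by rw [h0, zero_div])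
          have hR0 : R ≠ 0 := by
            rintro rfl
            rw [mul_zero] at hR
            exact hK hR
          have h1 : asum l ≤ cardFactors R := by
            by_contra h2
            exact hT (T_small l j R hR0 (by omega))
          rw [hR, cardFactors_mul hj0 hR0, cardFactors_pow] at hcard
          rw [asum_cons] at hs
          have h3 : 0 < cardFactors j := cardFactors_pos_iff_one_lt.2 (by omega)
          have h4 : cardFactors j = 1 := by
            by_contra h5
            have h6 : x.1 * 2 ≤ x.1 * cardFactors j := Nat.mul_le_mul_left _ (by omega)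
            omega
          have hjp : j.Prime := cardFactors_eq_one_iff_prime.1 h4
          have hjK : j ∣ KQ (q :: Q) := by
            rw [hR]
            exact dvd_mul_of_dvd_left (dvd_pow_self _ hx) _
          rw [KQ_cons] at hjK
          have hjlt : j < q.1 := by
            rcases (Nat.Prime.dvd_mul hjp).1 hjK with h5 | h5
            · exact absurd ((Nat.prime_dvd_prime_iff_eq hjp hq).1 (hjp.dvd_of_dvd_pow h5)) hjq
            · exact hlt j hjp h5
          have hqd : q.1 ∣ j ^ x.1 * R := by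
            rw [← hR, KQ_cons]
            have := hQ.2.1 q List.mem_cons_self
            exact dvd_mul_of_dvd_left (dvd_pow_self _ (by omega)) _
          rcases (Nat.Prime.dvd_mul hq).1 hqd with h5 | h5
          · exact hjq ((Nat.prime_dvd_prime_iff_eq hq hjp).1 (hq.dvd_of_dvd_pow h5)).symm
          · have := T_primes l j R hT q.1 hq h5
            omega
        · rfl
      by_cases hm : q.1 < m
      · rw [sum_eq_single q.1 hother (fun h => absurd (mem_Ico.2 ⟨hq.two_le, hm⟩) h)]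
        by_cases hae : x.1 = q.2
        · have hd : q.1 ^ x.1 ∣ KQ (q :: Q) := by rw [KQ_cons, hae]; exact dvd_mul_right _ _
          have hcond : x.1 = q.2 ∧ q.1 < m := ⟨hae, hm⟩
          rw [if_pos hd, if_pos hcond, hae, KQ_cons,
            Nat.mul_div_cancel_left _ (pow_pos hq.pos _), ih Q q.1 hQ' (by
              rw [esum_cons, asum_cons, hae] at hs
              omega)]
        · have hcond : ¬ (x.1 = q.2 ∧ q.1 < m) := fun h => hae h.1
          rw [if_neg hcond]
          split_ifs with hd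
          · have hle : x.1 ≤ q.2 := by
              rw [KQ_cons] at hd
              have hcop : (q.1 ^ x.1).Coprime (KQ Q) :=
                Nat.Coprime.pow_left _ ((Nat.Prime.coprime_iff_not_dvd hq).2 hqK)
              exact (Nat.pow_dvd_pow_iff_le_right hq.one_lt).1 (hcop.dvd_of_dvd_mul_right hd)
            have hR : KQ (q :: Q) / q.1 ^ x.1 = q.1 * (q.1 ^ (q.2 - x.1 - 1) * KQ Q) := by
              rw [KQ_cons]
              have h1 : q.2 = x.1 + (1 + (q.2 - x.1 - 1)) := by omega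
              conv_lhs => rw [h1]
              rw [pow_add, pow_add, pow_one, mul_assoc,
                Nat.mul_div_cancel_left _ (pow_pos hq.pos _), mul_assoc]
            have h0 : T 2 l q.1 (KQ (q :: Q) / q.1 ^ x.1) = 0 := by
              by_contra h0
              exact lt_irrefl _ (T_primes l _ _ h0 q.1 hq (by rw [hR]; exact dvd_mul_right _ _))
            rw [h0, zero_div]
          · rfl
      · rw [if_neg (fun h => hm h.2)]
        refine sum_eq_zero fun j hj => hother j hj ?_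
        rw [mem_Ico] at hj
        omega

/-- the value at a list of prime powers for a word whose first letter grows -/
theorem cf_eval (x : ℕ × ℕ) (l : List (ℕ × ℕ)) (hx : x.1 ≠ 0) (q : ℕ × ℕ) (Q : List (ℕ × ℕ))
    (hQ : DP (q :: Q)) (hs : esum (q :: Q) ≤ asum (x :: l)) :
    cf 2 (x :: l) (KQ (q :: Q)) = if x.1 = q.2 then E l Q q.1 / (q.1 : ℚ) ^ x.2 else 0 := by
  rw [cf, T_eval _ _ _ hQ hs, E_pos_cons x l q Q _ hx]
  have h1 : q.1 ∣ KQ (q :: Q) := by
    rw [KQ_cons]
    have := hQ.2.1 q List.mem_cons_self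
    exact dvd_mul_of_dvd_left (dvd_pow_self _ (by omega)) _
  have h2 := Nat.le_of_dvd (Nat.pos_of_ne_zero (KQ_ne hQ.1)) h1
  by_cases h : x.1 = q.2
  · rw [if_pos ⟨h, by omega⟩, if_pos h]
  · rw [if_neg (fun h' => h h'.1), if_neg h]

/-- nothing below the largest prime -/
lemma E_low (l : List (ℕ × ℕ)) (q : ℕ × ℕ) (Q : List (ℕ × ℕ)) : ∀ m, m ≤ q.1 →
    E l (q :: Q) m = 0 := by
  induction l with
  | nil => intro m _; exact E_nil_cons _ _ _
  | cons x l ih =>
    intro m hm
    by_cases hx : x.1 = 0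
    · rw [E_fix x l _ m hx]
      refine sum_eq_zero fun j hj => ?_
      rw [mem_Ico] at hj
      rw [ih j (by omega), zero_div]
    · rw [E_pos_cons x l q Q m hx, if_neg]
      intro h
      omega

end Pool.Agent.TH507.WG
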