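import Mathlib
import Pool.Agent.TH507.WG.B
import Pool.Agent.TH883.Zg.Sign

/-!
# Linear independence of the word functions with fixed and growing letters
-/

set_option autoImplicit false

namespace Pool.Agent.TH507.WG

open Finset
open Pool.Agent.TH507.HS (hs hs_nil hs_cons)
open Pool.Agent.TH883.Zg (hs_prime)

/-- admissible letters -/
def OK (l : List (ℕ × ℕ)) : Prop := ∀ x ∈ l, x.1 = 0 → 1 ≤ x.2

lemma OK.tail {x : ℕ × ℕ} {l : List (ℕ × ℕ)} (h : OK (x :: l)) : OK l :=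
  fun y hy => h y (List.mem_cons_of_mem _ hy)

/-- the first block of fixed letters -/
def zb : List (ℕ × ℕ) → List ℕ+
  | [] => []
  | x :: l => if x.1 = 0 then x.2.toPNat' :: zb l else []

/-- the rest -/
def rs : List (ℕ × ℕ) → List (ℕ × ℕ)
  | [] => []
  | x :: l => if x.1 = 0 then rs l else x :: l

/-- the exponents of the growing letters -/
def pa : List (ℕ × ℕ) → List ℕ
  | [] => []
  | x :: l => if x.1 = 0 then pa l else x.1 :: pa l

/-- fixed letters -/
def Z (v : List ℕ+) : List (ℕ × ℕ) := v.map fun b => (0, (b : ℕ))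

lemma Z_nil : Z [] = [] := rfl
lemma Z_cons (b : ℕ+) (v : List ℕ+) : Z (b :: v) = (0, (b : ℕ)) :: Z v := rfl

lemma zb_fix {x : ℕ × ℕ} (l : List (ℕ × ℕ)) (hx : x.1 = 0) : zb (x :: l) = x.2.toPNat' :: zb l := by
  rw [zb, if_pos hx]
lemma zb_pos {x : ℕ × ℕ} (l : List (ℕ × ℕ)) (hx : x.1 ≠ 0) : zb (x :: l) = [] := by
  rw [zb, if_neg hx]
lemma rs_fix {x : ℕ × ℕ} (l : List (ℕ × ℕ)) (hx : x.1 = 0) : rs (x :: l) = rs l := by
  rw [rs, if_pos hx]
lemma rs_pos {x : ℕ × ℕ} (l : List (ℕ × ℕ)) (hx : x.1 ≠ 0) : rs (x :: l) = x :: l := by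
  rw [rs, if_neg hx]
lemma pa_fix {x : ℕ × ℕ} (l : List (ℕ × ℕ)) (hx : x.1 = 0) : pa (x :: l) = pa l := by
  rw [pa, if_pos hx]
lemma pa_pos {x : ℕ × ℕ} (l : List (ℕ × ℕ)) (hx : x.1 ≠ 0) : pa (x :: l) = x.1 :: pa l := by
  rw [pa, if_neg hx]

lemma split {l : List (ℕ × ℕ)} (h : OK l) : Z (zb l) ++ rs l = l := by
  induction l with
  | nil => rfl
  | cons x l ih =>
    by_cases hx : x.1 = 0
    · rw [zb_fix l hx, rs_fix l hx, Z_cons, List.cons_append, ih h.tail]
      congr 1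
      have h1 := h x List.mem_cons_self hx
      refine Prod.ext hx.symm ?_
      show ((x.2.toPNat' : ℕ+) : ℕ) = x.2
      rw [Nat.toPNat'_coe, if_pos (by omega)]
    · rw [zb_pos l hx, rs_pos l hx]
      rfl

lemma zb_Z (v : List ℕ+) (x : ℕ × ℕ) (l : List (ℕ × ℕ)) (hx : x.1 ≠ 0) : zb (Z v ++ x :: l) = v := by
  induction v with
  | nil => exact zb_pos l hx
  | cons b v ih =>
    rw [Z_cons, List.cons_append, zb_fix _ rfl, ih]
    congr 1
    apply PNat.eq
    rw [Nat.toPNat'_coe, if_pos b.pos]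

lemma rs_Z (v : List ℕ+) (x : ℕ × ℕ) (l : List (ℕ × ℕ)) (hx : x.1 ≠ 0) :
    rs (Z v ++ x :: l) = x :: l := by
  induction v with
  | nil => exact rs_pos l hx
  | cons b v ih => rw [Z_cons, List.cons_append, rs_fix _ rfl, ih]

lemma pa_Z (v : List ℕ+) (l : List (ℕ × ℕ)) : pa (Z v ++ l) = pa l := by
  induction v with
  | nil => rfl
  | cons b v ih => rw [Z_cons, List.cons_append, pa_fix _ rfl, ih]

lemma pa_rs (l : List (ℕ × ℕ)) : pa (rs l) = pa l := by
  induction l with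
  | nil => rfl
  | cons x l ih =>
    by_cases hx : x.1 = 0
    · rw [rs_fix l hx, pa_fix l hx, ih]
    · rw [rs_pos l hx]

lemma rs_cases (l : List (ℕ × ℕ)) : (rs l = [] ∧ pa l = []) ∨
    ∃ x l', rs l = x :: l' ∧ x.1 ≠ 0 ∧ pa l = x.1 :: pa l' := by
  induction l with
  | nil => exact Or.inl ⟨rfl, rfl⟩
  | cons x l ih =>
    by_cases hx : x.1 = 0
    · rw [rs_fix l hx, pa_fix l hx]
      exact ih
    · rw [rs_pos l hx, pa_pos l hx]
      exact Or.inr ⟨x, l, rfl, hx, rfl⟩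

lemma asum_pa (l : List (ℕ × ℕ)) : asum l = (pa l).sum := by
  induction l with
  | nil => rfl
  | cons x l ih =>
    by_cases hx : x.1 = 0
    · rw [asum_cons, pa_fix l hx, hx, zero_add, ih]
    · rw [asum_cons, pa_pos l hx, List.sum_cons, ih]

lemma E_shape (l : List (ℕ × ℕ)) : ∀ Q m, E l Q m ≠ 0 → pa l = Q.map Prod.snd := by
  induction l with
  | nil =>
    intro Q m h
    cases Q with
    | nil => rfl
    | cons q Q => exact absurd (E_nil_cons q Q m) h
  | cons x l ih =>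
    intro Q m h
    by_cases hx : x.1 = 0
    · rw [E_fix x l Q m hx] at h
      obtain ⟨j, -, hj⟩ := exists_ne_zero_of_sum_ne_zero h
      rw [pa_fix l hx]
      exact ih Q j fun h0 => hj (by rw [h0, zero_div])
    · cases Q with
      | nil => exact absurd (E_pos_nil x l m hx) h
      | cons q Q =>
        rw [E_pos_cons x l q Q m hx] at h
        split_ifs at h with h1
        · rw [pa_pos l hx, List.map_cons, ih Q q.1 fun h0 => h (by rw [h0, zero_div]), h1.1]
        · exact absurd rfl h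

/-- the first bound -/
def tp : List (ℕ × ℕ) → ℕ
  | [] => 1
  | q :: _ => q.1 + 1

lemma tp_pos (Q : List (ℕ × ℕ)) : 1 ≤ tp Q := by
  cases Q with
  | nil => exact le_rfl
  | cons q Q => exact Nat.le_add_left _ _

lemma E_below (l Q : List (ℕ × ℕ)) {j : ℕ} (hj1 : 1 ≤ j) (hj : j < tp Q) : E l Q j = 0 := by
  cases Q with
  | nil =>
    have : j < 1 := hj
    omega
  | cons q Q => exact E_low l q Q j (Nat.lt_succ_iff.1 hj)

/-- expansion in harmonic sums -/
lemma expand_E (l : List (ℕ × ℕ)) (hl : OK l) (Q : List (ℕ × ℕ)) : ∃ g : ℕ → ℚ,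
    g (zb l).length = E (rs l) Q (tp Q) ∧ ∀ m, tp Q ≤ m →
      E l Q m = ∑ i ∈ range ((zb l).length + 1), g i * hs ((zb l).take i) m := by
  induction l with
  | nil =>
    refine ⟨fun _ => E [] Q (tp Q), rfl, fun m _ => ?_⟩
    show E [] Q m = ∑ i ∈ range (0 + 1), E [] Q (tp Q) * hs (([] : List ℕ+).take i) m
    rw [zero_add, sum_range_one, List.take_nil, hs_nil, mul_one]
    cases Q with
    | nil => rw [E_nil_nil, E_nil_nil]
    | cons q Q => rw [E_nil_cons, E_nil_cons]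
  | cons x l ih =>
    by_cases hx : x.1 = 0
    · obtain ⟨g, hg1, hg2⟩ := ih hl.tail
      have hb : ((x.2.toPNat' : ℕ+) : ℕ) = x.2 := by
        rw [Nat.toPNat'_coe, if_pos (by have := hl x List.mem_cons_self hx; omega)]
      set b := x.2.toPNat' with hbdef
      set C : ℚ := ∑ i ∈ range ((zb l).length + 1), g i * hs (b :: (zb l).take i) (tp Q) with hC
      rw [zb_fix l hx, rs_fix l hx]
      refine ⟨fun i => Nat.casesOn i (-C) g, hg1, fun m hm => ?_⟩
      rw [List.length_cons, sum_range_succ', List.take_zero, hs_nil, mul_one]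
      show E (x :: l) Q m = ∑ i ∈ range ((zb l).length + 1), g i * hs ((b :: zb l).take (i + 1)) m
        + -C
      rw [E_fix x l Q m hx, ← sum_Ico_consecutive _ (tp_pos Q) hm]
      have h1 : ∑ j ∈ Ico 1 (tp Q), E l Q j / (j : ℚ) ^ x.2 = 0 := by
        refine sum_eq_zero fun j hj => ?_
        rw [mem_Ico] at hj
        rw [E_below l Q hj.1 hj.2, zero_div]
      have h2 : ∑ j ∈ Ico (tp Q) m, E l Q j / (j : ℚ) ^ x.2 =
          ∑ i ∈ range ((zb l).length + 1), g i *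
            ∑ j ∈ Ico (tp Q) m, hs ((zb l).take i) j / (j : ℚ) ^ x.2 := by
        simp only [mul_sum]
        rw [sum_comm]
        refine sum_congr rfl fun j hj => ?_
        rw [mem_Ico] at hj
        rw [hg2 j hj.1, sum_div]
        exact sum_congr rfl fun i _ => by rw [mul_div_assoc]
      have h3 : ∀ i, ∑ j ∈ Ico (tp Q) m, hs ((zb l).take i) j / (j : ℚ) ^ x.2 =
          hs (b :: (zb l).take i) m - hs (b :: (zb l).take i) (tp Q) := by
        intro i
        rw [hs_cons, hs_cons, hb, ← sum_Ico_consecutive _ (tp_pos Q) hm]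
        ring
      rw [h1, zero_add, h2, hC, ← sub_eq_add_neg, ← sum_sub_distrib]
      refine sum_congr rfl fun i _ => ?_
      rw [h3, List.take_succ_cons]
      ring
    · rw [zb_pos l hx, rs_pos l hx]
      refine ⟨fun _ => E (x :: l) Q (tp Q), rfl, fun m hm => ?_⟩
      show E (x :: l) Q m = ∑ i ∈ range (0 + 1), E (x :: l) Q (tp Q) * hs (([] : List ℕ+).take i) m
      rw [zero_add, sum_range_one, List.take_nil, hs_nil, mul_one]
      cases Q with
      | nil => rw [E_pos_nil x l _ hx, E_pos_nil x l _ hx]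
      | cons q Q =>
        have h1 : q.1 < m := hm
        have h2 : q.1 < tp (q :: Q) := Nat.lt_succ_self _
        rw [E_pos_cons x l q Q _ hx, E_pos_cons x l q Q _ hx]
        simp only [h1, h2, and_true]

/-- the leading coefficients vanish -/
lemma lead (W : Finset (ℕ × List (ℕ × ℕ))) (x : ℕ × List (ℕ × ℕ) → ℚ) (Y : ℕ)
    (hW : ∀ w ∈ W, OK w.2) (Q : List (ℕ × ℕ))
    (h : ∀ p : ℕ, p.Prime → Y ≤ p → ∑ w ∈ W, x w * (E w.2 Q p / (p : ℚ) ^ w.1) = 0)
    (w0 : ℕ × List (ℕ × ℕ)) (hw0 : w0 ∈ W)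
    (hmax : ∀ w ∈ W, x w ≠ 0 → (zb w.2).length ≤ (zb w0.2).length) :
    ∑ w ∈ W with w.1 = w0.1 ∧ zb w.2 = zb w0.2, x w * E (rs w.2) Q (tp Q) = 0 := by
  classical
  have hex : ∀ w : W, ∃ g : ℕ → ℚ, g (zb w.1.2).length = E (rs w.1.2) Q (tp Q) ∧
      ∀ m, tp Q ≤ m → E w.1.2 Q m =
        ∑ i ∈ range ((zb w.1.2).length + 1), g i * hs ((zb w.1.2).take i) m := fun w =>
    expand_E w.1.2 (hW w.1 w.2) Q
  choose g hg1 hg2 using hex
  set H : ℕ := W.sup Prod.fst with hH
  have hHle : ∀ w : W, w.1.1 < H + 1 := fun w => Nat.lt_succ_of_le (le_sup (f := Prod.fst) w.2)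
  set Λ : Finset (List ℕ+) := W.biUnion fun w =>
    (range ((zb w.2).length + 1)).image fun i => (zb w.2).take i with hΛ
  have hΛm : ∀ (w : W) (i : Fin ((zb w.1.2).length + 1)), (zb w.1.2).take i ∈ Λ := fun w i =>
    mem_biUnion.2 ⟨w.1, w.2, mem_image_of_mem _ (mem_range.2 i.2)⟩
  set φ : (Σ w : W, Fin ((zb w.1.2).length + 1)) → Fin (H + 1) × Λ := fun t =>
    (⟨t.1.1.1, hHle t.1⟩, ⟨(zb t.1.1.2).take t.2, hΛm t.1 t.2⟩) with hφ
  set G : (Σ w : W, Fin ((zb w.1.2).length + 1)) → ℚ := fun t => x t.1.1 * g t.1 t.2 with hG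
  have hc := hs_prime Λ H (Y + tp Q) (fun y => ∑ t, if φ t = y then G t else 0) (by
    intro q hq hqY
    have h1 : ∀ F : Fin (H + 1) × Λ → ℚ,
        ∑ y, (∑ t, if φ t = y then G t else 0) * F y = ∑ t, G t * F (φ t) := by
      intro F
      simp only [sum_mul, ite_mul, zero_mul]
      rw [sum_comm]
      refine sum_congr rfl fun t _ => ?_
      rw [sum_ite_eq, if_pos (mem_univ _)]
    rw [h1, Fintype.sum_sigma, ← h q hq (by omega), ← sum_coe_sort W]
    refine sum_congr rfl fun w _ => ?_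
    rw [hg2 w q (by omega), sum_range, sum_div, mul_sum]
    refine sum_congr rfl fun i _ => ?_
    rw [hG, hφ]
    simp only
    ring)
  have hy := congrFun hc (⟨w0.1, hHle ⟨w0, hw0⟩⟩, ⟨zb w0.2, by
    have := hΛm ⟨w0, hw0⟩ ⟨(zb w0.2).length, Nat.lt_succ_self _⟩
    simpa using this⟩)
  simp only [Pi.zero_apply] at hy
  rw [Fintype.sum_sigma] at hy
  rw [sum_filter, ← sum_coe_sort W]
  refine Eq.trans (sum_congr rfl fun w _ => ?_) hy
  by_cases hxw : x w.1 = 0
  · rw [hxw, zero_mul, ite_self]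
    symm
    refine sum_eq_zero fun i _ => ?_
    rw [hG]
    simp only
    rw [hxw, zero_mul, ite_self]
  have hlen := hmax w.1 w.2 hxw
  have hiff : ∀ i : Fin ((zb w.1.2).length + 1), φ ⟨w, i⟩ =
      (⟨w0.1, hHle ⟨w0, hw0⟩⟩, ⟨zb w0.2, by
        have := hΛm ⟨w0, hw0⟩ ⟨(zb w0.2).length, Nat.lt_succ_self _⟩
        simpa using this⟩) ↔ (w.1.1 = w0.1 ∧ zb w.1.2 = zb w0.2) ∧
        i = ⟨(zb w.1.2).length, Nat.lt_succ_self _⟩ := by
    intro i
    rw [hφ]
    simp only [Prod.mk.injEq, Fin.mk.injEq, Subtype.mk.injEq]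
    constructor
    · rintro ⟨h1, h2⟩
      have h3 := congrArg List.length h2
      rw [List.length_take] at h3
      have h4 := i.2
      have h5 : (i : ℕ) = (zb w.1.2).length := by omega
      rw [h5, List.take_length] at h2
      exact ⟨⟨h1, h2⟩, Fin.ext h5⟩
    · rintro ⟨⟨h1, h2⟩, rfl⟩
      refine ⟨h1, ?_⟩
      show (zb w.1.2).take (zb w.1.2).length = zb w0.2
      rw [List.take_length, h2]
  by_cases hcond : w.1.1 = w0.1 ∧ zb w.1.2 = zb w0.2
  · rw [if_pos hcond, sum_eq_single ⟨(zb w.1.2).length, Nat.lt_succ_self _⟩]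
    · rw [if_pos ((hiff _).2 ⟨hcond, rfl⟩), hG]
      simp only
      rw [hg1]
    · intro i _ hi
      rw [if_neg fun h' => hi ((hiff i).1 h').2]
    · intro h'
      exact absurd (mem_univ _) h'
  · rw [if_neg hcond]
    symm
    refine sum_eq_zero fun i _ => ?_
    rw [if_neg fun h' => hcond ((hiff i).1 h').1]

end Pool.Agent.TH507.WG
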