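import Mathlib
import Pool.Agent.TH507.WG.C

/-!
# Linear independence of the word functions with fixed and growing letters, end
-/

set_option autoImplicit false

namespace Pool.Agent.TH507.WG

open Finset

lemma pa_ne (l : List (ℕ × ℕ)) : ∀ e ∈ pa l, e ≠ 0 := by
  induction l with
  | nil => intro e he; exact absurd he List.not_mem_nil
  | cons x l ih =>
    intro e he
    by_cases hx : x.1 = 0
    · rw [pa_fix l hx] at he
      exact ih e he
    · rw [pa_pos l hx] at he
      rcases List.mem_cons.1 he with rfl | he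
      · exact hx
      · exact ih e he

lemma DP.lt_tp {Q : List (ℕ × ℕ)} (h : DP Q) : ∀ q ∈ Q, q.1 < tp Q := by
  intro q hq
  cases Q with
  | nil => exact absurd hq List.not_mem_nil
  | cons r Q =>
    show q.1 < r.1 + 1
    rcases List.mem_cons.1 hq with rfl | hq
    · omega
    · have := (List.pairwise_cons.1 h.2.2).1 q hq
      omega

lemma OK.rs {l : List (ℕ × ℕ)} (h : OK l) : OK (rs l) := by
  intro y hy
  refine h y ?_
  rw [← split h]
  exact List.mem_append_right _ hy

theorem tail_ind (a : List ℕ) : ∀ (W : Finset (ℕ × List (ℕ × ℕ)))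
    (x : ℕ × List (ℕ × ℕ) → ℚ) (Y : ℕ), (∀ w ∈ W, OK w.2) → (∀ w ∈ W, pa w.2 = a) →
    (∀ Q, DP Q → (∀ q ∈ Q, Y ≤ q.1) → Q.map Prod.snd = a → ∀ p : ℕ, p.Prime → Y ≤ p →
      (∀ q ∈ Q, q.1 < p) → ∑ w ∈ W, x w * (E w.2 Q p / (p : ℚ) ^ w.1) = 0) →
    ∀ w ∈ W, x w = 0 := by
  classical
  induction a with
  | nil =>
    intro W x Y hOK hpa hE
    by_contra hcon
    push Not at hcon
    obtain ⟨w1, hw1, hw1'⟩ := hcon
    obtain ⟨w0, hw0, hmax⟩ := exists_max_image (W.filter fun v => x v ≠ 0)
      (fun v => (zb v.2).length) ⟨w1, mem_filter.2 ⟨hw1, hw1'⟩⟩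
    rw [mem_filter] at hw0
    have hDP : DP [] := ⟨by simp, by simp, List.Pairwise.nil⟩
    have h1 := lead W x Y hOK [] (fun p hp hY => hE [] hDP (by simp) rfl p hp hY (by simp)) w0
      hw0.1 (fun w hw hx => hmax w (mem_filter.2 ⟨hw, hx⟩))
    have hrs : ∀ w ∈ W, rs w.2 = [] := by
      intro w hw
      rcases rs_cases w.2 with h | ⟨y, l', -, -, h⟩
      · exact h.1
      · rw [hpa w hw] at h
        exact absurd h.symm (List.cons_ne_nil _ _)
    rw [sum_eq_single w0] at h1
    · rw [hrs w0 hw0.1, E_nil_nil, mul_one] at h1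
      exact hw0.2 h1
    · intro w hw hne
      exfalso
      apply hne
      rw [mem_filter] at hw
      refine Prod.ext hw.2.1 ?_
      rw [← split (hOK w hw.1), ← split (hOK w0 hw0.1), hw.2.2, hrs w hw.1, hrs w0 hw0.1]
    · intro h
      exact absurd (mem_filter.2 ⟨hw0.1, rfl, rfl⟩) h
  | cons e a ih =>
    intro W x Y hOK hpa hE
    by_contra hcon
    push Not at hcon
    obtain ⟨w1, hw1, hw1'⟩ := hcon
    obtain ⟨w0, hw0, hmax⟩ := exists_max_image (W.filter fun v => x v ≠ 0)
      (fun v => (zb v.2).length) ⟨w1, mem_filter.2 ⟨hw1, hw1'⟩⟩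
    rw [mem_filter] at hw0
    have hrs : ∀ w ∈ W, ∃ b l', rs w.2 = (e, b) :: l' ∧ pa l' = a ∧ OK l' := by
      intro w hw
      rcases rs_cases w.2 with ⟨-, h⟩ | ⟨y, l', h1, -, h2⟩
      · rw [hpa w hw] at h
        exact absurd h (List.cons_ne_nil _ _)
      · rw [hpa w hw, List.cons_eq_cons] at h2
        refine ⟨y.2, l', ?_, h2.2.symm, ?_⟩
        · rw [h1, h2.1]
        · have h3 := (hOK w hw).rs
          rw [h1] at h3
          exact h3.tail
    have he0 : e ≠ 0 := pa_ne w0.2 e (by rw [hpa w0 hw0.1]; exact List.mem_cons_self)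
    set ψ : ℕ × List (ℕ × ℕ) → ℕ × List (ℕ × ℕ) := fun t =>
      (w0.1, Z (zb w0.2) ++ (e, t.1) :: t.2) with hψ
    have hψi : Function.Injective ψ := by
      intro t t' h
      rw [hψ] at h
      simp only [Prod.mk.injEq, true_and] at h
      have h1 := List.append_cancel_left h
      rw [List.cons_eq_cons, Prod.mk.injEq] at h1
      exact Prod.ext h1.1.2 h1.2
    set F : Finset (ℕ × List (ℕ × ℕ)) := W.filter fun w => w.1 = w0.1 ∧ zb w.2 = zb w0.2 with hF
    have hrange : ∀ w ∈ F, ∃ t, ψ t = w := by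
      intro w hw
      rw [hF, mem_filter] at hw
      obtain ⟨b, l', h1, -, -⟩ := hrs w hw.1
      refine ⟨(b, l'), ?_⟩
      rw [hψ]
      refine Prod.ext hw.2.1.symm ?_
      show Z (zb w0.2) ++ (e, b) :: l' = w.2
      rw [← hw.2.2, ← h1]
      exact split (hOK w hw.1)
    have key := ih (F.preimage ψ hψi.injOn) (fun t => x (ψ t)) Y (fun t ht => by
      rw [mem_preimage, hF, mem_filter] at ht
      have h1 := hOK _ ht.1
      intro y hy
      exact h1 y (List.mem_append_right _ (List.mem_cons_of_mem _ hy))) (fun t ht => by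
      rw [mem_preimage, hF, mem_filter] at ht
      have h1 := hpa _ ht.1
      rw [hψ] at h1
      simp only at h1
      rw [pa_Z, pa_pos _ he0, List.cons_eq_cons] at h1
      exact h1.2) (by
      intro Q hQ hQY hQa p hp hpY hpQ
      have hDP : DP ((p, e) :: Q) := by
        refine ⟨fun q hq => ?_, fun q hq => ?_, List.pairwise_cons.2 ⟨hpQ, hQ.2.2⟩⟩
        · rcases List.mem_cons.1 hq with rfl | hq
          · exact hp
          · exact hQ.1 q hq
        · rcases List.mem_cons.1 hq with rfl | hq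
          · exact Nat.one_le_iff_ne_zero.2 he0
          · exact hQ.2.1 q hq
      have h1 := lead W x (Y + tp ((p, e) :: Q)) hOK ((p, e) :: Q) (fun r hr hY =>
        hE ((p, e) :: Q) hDP (fun q hq => by
          rcases List.mem_cons.1 hq with rfl | hq
          · exact hpY
          · exact hQY q hq) (by rw [List.map_cons, hQa]) r hr (by omega) (fun q hq => by
          have := hDP.lt_tp q hq
          omega)) w0 hw0.1 (fun w hw hx => hmax w (mem_filter.2 ⟨hw, hx⟩))
      rw [← hF] at h1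
      refine Eq.trans ?_ h1
      refine Eq.trans ?_ (sum_preimage ψ F hψi.injOn
        (fun w => x w * E (rs w.2) ((p, e) :: Q) (tp ((p, e) :: Q))) ?_)
      · refine sum_congr rfl fun t _ => ?_
        have h2 : rs (ψ t).2 = (e, t.1) :: t.2 := rs_Z _ _ _ he0
        rw [h2, E_pos_cons (e, t.1) t.2 (p, e) Q _ he0]
        have h3 : p < tp ((p, e) :: Q) := Nat.lt_succ_self p
        simp only [h3, and_self, if_true]
      · intro w hw hnr
        exact absurd (hrange w hw) hnr)
    obtain ⟨t, ht⟩ := hrange w0 (mem_filter.2 ⟨hw0.1, rfl, rfl⟩)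
    have h2 := key t (by
      rw [mem_preimage, ht, hF]
      exact mem_filter.2 ⟨hw0.1, rfl, rfl⟩)
    rw [ht] at h2
    exact hw0.2 h2

lemma esum_of_map {Q : List (ℕ × ℕ)} {w : List (ℕ × ℕ)} (h : Q.map Prod.snd = pa w) :
    esum Q = asum w := by
  rw [esum, h, asum_pa]

theorem cf2_ind (Λ : Finset (List (ℕ × ℕ))) (hHP : ∀ v ∈ Λ, HP v) (hOK : ∀ v ∈ Λ, OK v)
    (y : List (ℕ × ℕ) → ℚ) (N X : ℕ) (hN : 1 ≤ N)
    (h : ∀ K, X ≤ K → K.Coprime N → ∑ v ∈ Λ, y v * cf 2 v K = 0) :
    ∀ v ∈ Λ, v ≠ [] → y v = 0 := by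
  classical
  by_contra hcon
  push Not at hcon
  obtain ⟨v1, hv1, hv1', hv1''⟩ := hcon
  obtain ⟨v0, hv0, hmin⟩ := exists_min_image (Λ.filter fun v => v ≠ [] ∧ y v ≠ 0) asum
    ⟨v1, mem_filter.2 ⟨hv1, hv1', hv1''⟩⟩
  rw [mem_filter] at hv0
  obtain ⟨⟨e, b0⟩, l0, rfl⟩ := List.exists_cons_of_ne_nil hv0.2.1
  have he : 1 ≤ e := hHP _ hv0.1
  have he0 : e ≠ 0 := by omega
  set ψ : ℕ × List (ℕ × ℕ) → List (ℕ × ℕ) := fun t => (e, t.1) :: t.2 with hψ
  have hψi : Function.Injective ψ := by
    intro t t' ht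
    rw [hψ] at ht
    simp only [List.cons_eq_cons, Prod.mk.injEq, true_and] at ht
    exact Prod.ext ht.1 ht.2
  set F : Finset (List (ℕ × ℕ)) := Λ.filter fun v => pa v = e :: pa l0 with hF
  have hpa0 : ∀ t : ℕ × List (ℕ × ℕ), pa (ψ t) = e :: pa t.2 := fun t => pa_pos _ he0
  have hrange : ∀ v ∈ F, ∃ t, ψ t = v := by
    intro v hv
    rw [hF, mem_filter] at hv
    have hv2 := hv.2
    cases v with
    | nil => exact absurd hv2.symm (List.cons_ne_nil _ _)
    | cons z l =>
      have hz : 1 ≤ z.1 := hHP _ hv.1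
      rw [pa_pos l (by omega), List.cons_eq_cons] at hv2
      refine ⟨(z.2, l), ?_⟩
      show (e, z.2) :: l = z :: l
      rw [← hv2.1]
  have key := tail_ind (pa l0) (F.preimage ψ hψi.injOn) (fun t => y (ψ t)) (N + 1 + X)
    (fun t ht => by
      rw [mem_preimage, hF, mem_filter] at ht
      exact (hOK _ ht.1).tail) (fun t ht => by
      rw [mem_preimage, hF, mem_filter, hpa0, List.cons_eq_cons] at ht
      exact ht.2.2) (by
      intro Q hQ hQY hQa p hp hpY hpQ
      have hDP : DP ((p, e) :: Q) := by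
        refine ⟨fun q hq => ?_, fun q hq => ?_, List.pairwise_cons.2 ⟨hpQ, hQ.2.2⟩⟩
        · rcases List.mem_cons.1 hq with rfl | hq
          · exact hp
          · exact hQ.1 q hq
        · rcases List.mem_cons.1 hq with rfl | hq
          · exact he
          · exact hQ.2.1 q hq
      have hK0 := KQ_ne hDP.1
      have hqK : p ≤ KQ ((p, e) :: Q) := by
        refine Nat.le_of_dvd (Nat.pos_of_ne_zero hK0) ?_
        rw [KQ_cons]
        exact dvd_mul_of_dvd_left (dvd_pow_self _ he0) _
      have hcop : (KQ ((p, e) :: Q)).Coprime N := by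
        rw [Nat.coprime_iff_gcd_eq_one]
        by_contra hg
        obtain ⟨r, hr, hrd⟩ := Nat.exists_prime_and_dvd hg
        obtain ⟨q', hq', rfl⟩ := KQ_prime hDP.1 hr (hrd.trans (Nat.gcd_dvd_left _ _))
        have h5 := Nat.le_of_dvd hN (hrd.trans (Nat.gcd_dvd_right _ _))
        rcases List.mem_cons.1 hq' with rfl | hq'
        · have h6 : p ≤ N := h5
          omega
        · have h6 := hQY q' hq'
          omega
      have h5 := h (KQ ((p, e) :: Q)) (by omega) hcop
      refine Eq.trans ?_ h5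
      have h6 : ∑ v ∈ Λ, y v * cf 2 v (KQ ((p, e) :: Q)) =
          ∑ v ∈ F, y v * cf 2 v (KQ ((p, e) :: Q)) := by
        rw [hF, sum_filter]
        refine sum_congr rfl fun v hv => ?_
        split_ifs with hpv
        · rfl
        by_cases hyv : y v = 0
        · rw [hyv, zero_mul]
        cases v with
        | nil =>
          rw [cf, T_nil, if_neg (by have := hp.two_le; omega), mul_zero]
        | cons z l =>
          have hz : 1 ≤ z.1 := hHP _ hv
          have h7 := hmin (z :: l) (mem_filter.2 ⟨hv, List.cons_ne_nil _ _, hyv⟩)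
          rw [cf_eval z l (by omega) (p, e) Q hDP (by
            rw [esum_cons, esum_of_map hQa, ← asum_cons (e, b0) l0]
            exact h7)]
          split_ifs with h8
          · have h9 : E l Q p = 0 := by
              by_contra h9
              apply hpv
              rw [pa_pos l (by omega), E_shape l Q p h9, hQa]
              congr 1
            rw [h9, zero_div, mul_zero]
          · rw [mul_zero]
      rw [h6]
      refine Eq.trans ?_ (sum_preimage ψ F hψi.injOn
        (fun v => y v * cf 2 v (KQ ((p, e) :: Q))) ?_)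
      · refine sum_congr rfl fun t ht => ?_
        rw [mem_preimage, hF, mem_filter] at ht
        by_cases hyt : y (ψ t) = 0
        · rw [hyt, zero_mul, zero_mul]
        have h7 := hmin (ψ t) (mem_filter.2 ⟨ht.1, List.cons_ne_nil _ _, hyt⟩)
        have h8 : cf 2 (ψ t) (KQ ((p, e) :: Q)) =
            if e = e then E t.2 Q p / (p : ℚ) ^ t.1 else 0 :=
          cf_eval (e, t.1) t.2 he0 (p, e) Q hDP (by
            rw [esum_cons, esum_of_map hQa, ← asum_cons (e, b0) l0]
            exact h7)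
        rw [h8, if_pos rfl]
      · intro v hv hnr
        exact absurd (hrange v hv) hnr)
  have hmem : ((e, b0) :: l0) ∈ F := by
    rw [hF]
    exact mem_filter.2 ⟨hv0.1, pa_pos _ he0⟩
  exact hv0.2.2 (key (b0, l0) (by
    rw [mem_preimage]
    exact hmem))

theorem cf1_ind (Λ : Finset (List (ℕ × ℕ))) (hΛ : [] ∉ Λ) (hHP : ∀ v ∈ Λ, HP v)
    (hOK : ∀ v ∈ Λ, OK v) (x : List (ℕ × ℕ) → ℚ) (N X : ℕ)
    (hN : 1 ≤ N) (h : ∀ K, X ≤ K → K.Coprime N → ∑ w ∈ Λ, x w * cf 1 w K = 0) :
    ∀ w ∈ Λ, x w = 0 := by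
  classical
  by_contra hcon
  push Not at hcon
  obtain ⟨w1, hw1, hw1'⟩ := hcon
  obtain ⟨w0, hw0, hmax⟩ := exists_max_image (Λ.filter fun v => x v ≠ 0) List.length
    ⟨w1, mem_filter.2 ⟨hw1, hw1'⟩⟩
  rw [mem_filter] at hw0
  have hne : w0 ≠ [] := fun h0 => hΛ (h0 ▸ hw0.1)
  choose s r h1 h2 h3 h4 using T_one
  set y : List (ℕ × ℕ) → ℚ := fun v => (if v ∈ Λ then x v else 0) +
    ∑ w ∈ Λ, (if v ∈ s w then x w * r w v else 0) with hy
  have hsub : ∀ w ∈ Λ, s w ⊆ Λ ∪ Λ.biUnion s := fun w hw =>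
    (subset_biUnion_of_mem s hw).trans subset_union_right
  have hy0 := cf2_ind (Λ ∪ Λ.biUnion s) (by
    intro v hv
    rcases mem_union.1 hv with hv | hv
    · exact hHP v hv
    · obtain ⟨w, hw, hvw⟩ := mem_biUnion.1 hv
      rcases h2 w v hvw with rfl | h5
      · trivial
      · have h6 := hHP w hw
        cases v with
        | nil => trivial
        | cons a v =>
          cases w with
          | nil => simp at h5
          | cons b w =>
            simp only [List.head?_cons, Option.some.injEq] at h5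
            show 1 ≤ a.1
            rw [h5]
            exact h6) (by
    intro v hv
    rcases mem_union.1 hv with hv | hv
    · exact hOK v hv
    · obtain ⟨w, hw, hvw⟩ := mem_biUnion.1 hv
      exact fun z hz => hOK w hw z (h3 w v hvw z hz)) y N (X + 1) hN (by
    intro K hK hKc
    rw [← h K (by omega) hKc]
    have e1 : ∑ v ∈ Λ ∪ Λ.biUnion s, (if v ∈ Λ then x v else 0) * cf 2 v K =
        ∑ w ∈ Λ, x w * cf 2 w K := by
      simp only [ite_mul, zero_mul]
      rw [sum_ite_mem, union_inter_cancel_left]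
    have e2 : ∑ v ∈ Λ ∪ Λ.biUnion s, (∑ w ∈ Λ, (if v ∈ s w then x w * r w v else 0)) * cf 2 v K =
        ∑ w ∈ Λ, ∑ v ∈ s w, x w * (r w v * cf 2 v K) := by
      simp only [sum_mul]
      rw [sum_comm]
      refine sum_congr rfl fun w hw => ?_
      simp only [ite_mul, zero_mul]
      rw [sum_ite_mem, inter_eq_right.2 (hsub w hw)]
      exact sum_congr rfl fun v _ => by ring
    simp only [hy, add_mul, sum_add_distrib]
    rw [e1, e2, ← sum_add_distrib]
    refine sum_congr rfl fun w hw => ?_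
    rw [← mul_sum, ← mul_add]
    congr 1
    exact (h4 w (K + 1) K (by omega)).symm) w0 (mem_union_left _ hw0.1) hne
  rw [hy] at hy0
  simp only [hw0.1, if_true] at hy0
  rw [sum_eq_zero (fun w hw => by
    split_ifs with h5
    · have h6 := h1 w w0 h5
      have h7 : x w = 0 := by
        by_contra h7
        have := hmax w (mem_filter.2 ⟨hw, h7⟩)
        omega
      rw [h7, zero_mul]
    · rfl), add_zero] at hy0
  exact hw0.2 hy0

end Pool.Agent.TH507.WG
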