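import Mathlib
import Pool.Agent.TH507.WG.D
import Pool.Agent.TH507.WD.D

/-!
# Multiple zeta values, the stuffle product, limits: fixed and growing letters
-/

set_option autoImplicit false

namespace Pool.Agent.TH507.WG

open Finset Filter Topology
open Pool.Agent.TH507.ZS (dser dser_summable Z2 Z2_sum Z2_nonneg)
open Pool.Agent.TH507.WD (hr hr_nil hr_cons hr_nonneg mz hr_range prod_Ico list_swap list_div)

lemma hr_pow (l : List ℕ) : ∀ m, 1 ≤ m → hr l m ≤ (m : ℝ) ^ l.length := by
  induction l with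
  | nil => intro m _; rw [hr_nil]; simp
  | cons s l ih =>
    intro m hm
    rw [hr_cons, List.length_cons, pow_succ]
    have h1 : ∀ j ∈ Ico 1 m, hr l j / (j : ℝ) ^ s ≤ (m : ℝ) ^ l.length := by
      intro j hj
      rw [mem_Ico] at hj
      have hj1 : (1 : ℝ) ≤ j := by exact_mod_cast hj.1
      have h3 : (j : ℝ) ≤ m := by exact_mod_cast hj.2.le
      exact (div_le_self (hr_nonneg _ _) (one_le_pow₀ hj1)).trans
        ((ih j hj.1).trans (pow_le_pow_left₀ (by linarith) h3 _))
    refine (sum_le_sum h1).trans ?_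
    rw [sum_const, Nat.card_Ico, nsmul_eq_mul, mul_comm]
    have h4 : ((m - 1 : ℕ) : ℝ) ≤ m := by exact_mod_cast Nat.sub_le _ _
    exact mul_le_mul_of_nonneg_left h4 (by positivity)

lemma hr_bd (s : ℕ) (l : List ℕ) (hs : l.length + 2 ≤ s) (m : ℕ) : hr (s :: l) m ≤ Z2 := by
  rw [hr_cons]
  have h1 : ∀ j ∈ Ico 1 m, hr l j / (j : ℝ) ^ s ≤ 1 / (j : ℝ) ^ 2 := by
    intro j hj
    rw [mem_Ico] at hj
    have hj1 : (1 : ℝ) ≤ j := by exact_mod_cast hj.1
    rw [div_le_div_iff₀ (by positivity) (by positivity), one_mul]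
    calc hr l j * (j : ℝ) ^ 2 ≤ (j : ℝ) ^ l.length * (j : ℝ) ^ 2 :=
          mul_le_mul_of_nonneg_right (hr_pow l j hj.1) (by positivity)
      _ = (j : ℝ) ^ (l.length + 2) := (pow_add _ _ _).symm
      _ ≤ (j : ℝ) ^ s := pow_le_pow_right₀ hj1 hs
  refine (sum_le_sum h1).trans ?_
  have h2 : ∑ j ∈ Ico 1 m, 1 / (j : ℝ) ^ 2 = ∑ k ∈ range (m - 1), 1 / ((k + 1 : ℕ) : ℝ) ^ 2 := by
    rw [sum_Ico_eq_sum_range]
    refine sum_congr rfl fun k _ => ?_
    rw [add_comm 1 k]
  rw [h2]
  exact Z2_sum.sum_le_tsum _ fun k _ => by positivity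

lemma tendsto_cons (s : ℕ) (l : List ℕ) (hs : l.length + 2 ≤ s) :
    Tendsto (hr (s :: l)) atTop (𝓝 (mz (s :: l))) := by
  rw [mz]
  have hnn : ∀ k : ℕ, 0 ≤ hr l (k + 1) / ((k + 1 : ℕ) : ℝ) ^ s := fun k =>
    div_nonneg (hr_nonneg _ _) (by positivity)
  have hsum : Summable fun k : ℕ => hr l (k + 1) / ((k + 1 : ℕ) : ℝ) ^ s := by
    refine summable_of_sum_range_le (c := Z2) hnn fun m => ?_
    rw [hr_range]
    exact hr_bd _ _ hs _
  have h1 := hsum.hasSum.tendsto_sum_nat
  simp only [hr_range] at h1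
  exact (tendsto_add_atTop_iff_nat 1).1 h1

/-- the arguments at `n` -/
def ar (n : ℕ) (w : List (ℕ × ℕ)) : List ℕ := w.map fun x => x.1 * n + x.2

lemma ar_nil (n : ℕ) : ar n [] = [] := rfl
lemma ar_cons (n : ℕ) (x : ℕ × ℕ) (l : List (ℕ × ℕ)) :
    ar n (x :: l) = (x.1 * n + x.2) :: ar n l := rfl

lemma ar_length (n : ℕ) (w : List (ℕ × ℕ)) : (ar n w).length = w.length := by
  rw [ar, List.length_map]

lemma tendsto_ar {n : ℕ} (w : List (ℕ × ℕ)) (hw : HP w) (hn : w.length + 1 ≤ n) :
    Tendsto (hr (ar n w)) atTop (𝓝 (mz (ar n w))) := by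
  cases w with
  | nil =>
    rw [ar_nil, mz]
    refine tendsto_const_nhds.congr fun m => ?_
    rw [hr_nil]
  | cons x l =>
    rw [ar_cons]
    refine tendsto_cons _ _ ?_
    rw [ar_length]
    rw [List.length_cons] at hn
    have h1 : 1 * n ≤ x.1 * n := Nat.mul_le_mul_right _ hw
    omega

lemma hasSum_T (n : ℕ) (hn : 1 ≤ n) (w : List (ℕ × ℕ)) : ∀ m,
    HasSum (fun K : ℕ => (T 1 w m K : ℝ) / (K : ℝ) ^ n) (hr (ar n w) m) := by
  induction w with
  | nil =>
    intro m
    rw [ar_nil, hr_nil]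
    convert hasSum_ite_eq (1 : ℕ) (1 : ℝ) using 1
    funext K
    rw [T_nil]
    split_ifs with h
    · subst h
      simp
    · simp
  | cons x l ih =>
    intro m
    rw [ar_cons, hr_cons]
    have h0 : (fun K : ℕ => (T 1 (x :: l) m K : ℝ) / (K : ℝ) ^ n) = fun K : ℕ =>
        ∑ j ∈ Ico 1 m, ((if j ^ x.1 ∣ K then
          T 1 l j (K / j ^ x.1) / (j : ℚ) ^ x.2 else 0 : ℚ) : ℝ) / (K : ℝ) ^ n := by
      funext K
      rw [T_cons, lo_one, Rat.cast_sum, sum_div]
    rw [h0]
    refine hasSum_sum fun j hj => ?_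
    rw [mem_Ico] at hj
    have hj0 : 0 < j ^ x.1 := pow_pos (by omega) _
    have hinj : Function.Injective fun K' : ℕ => j ^ x.1 * K' := fun p q h =>
      Nat.eq_of_mul_eq_mul_left hj0 h
    refine (hinj.hasSum_iff ?_).1 ?_
    · intro K hK
      rw [if_neg]
      · simp
      · rintro ⟨R, rfl⟩
        exact hK ⟨R, rfl⟩
    · have h1 := (ih j).div_const ((j : ℝ) ^ (x.1 * n + x.2))
      refine Eq.mpr (congrArg (fun F => HasSum F _) (funext fun K' => ?_)) h1
      simp only [Function.comp]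
      rw [if_pos (dvd_mul_right _ _), Nat.mul_div_cancel_left _ hj0]
      have hjR : (j : ℝ) ≠ 0 := by
        have : j ≠ 0 := by omega
        exact_mod_cast this
      push_cast
      rw [pow_add, mul_pow, ← pow_mul, div_div, div_div]
      congr 1
      ring

lemma cf_zero (w : List (ℕ × ℕ)) : cf 1 w 0 = 0 := T_zero _ _ _

lemma cf_bd (w : List (ℕ × ℕ)) {A : ℕ} (hA : 2 ^ w.length ≤ A) (hA2 : w.length ≤ A) (k : ℕ)
    (hk : 1 ≤ k) : |(cf 1 w k : ℝ)| ≤ A * (k : ℝ) ^ A := by
  have h1 : (1 : ℝ) ≤ k := by exact_mod_cast hk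
  rw [abs_of_nonneg (by exact_mod_cast cf_nonneg _ _ _)]
  have h2 : (cf 1 w k : ℝ) ≤ 2 ^ w.length * (k : ℝ) ^ w.length := by
    exact_mod_cast cf_le w k hk
  refine h2.trans ?_
  have h3 : (2 : ℝ) ^ w.length ≤ A := by exact_mod_cast hA
  exact mul_le_mul h3 (pow_le_pow_right₀ h1 hA2) (by positivity) (Nat.cast_nonneg _)

lemma dser_eq_mz (w : List (ℕ × ℕ)) (hw : HP w) {A n : ℕ} (hA : 2 ^ w.length ≤ A)
    (hA2 : w.length ≤ A) (hn : A + 2 ≤ n) : dser (cf 1 w) n = mz (ar n w) := by
  have hsum := dser_summable (cf_bd w hA hA2) hn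
  have hF : HasSum (fun K : ℕ => (cf 1 w K : ℝ) / (K : ℝ) ^ n) (dser (cf 1 w) n) := by
    refine (hasSum_nat_add_iff' 1).1 ?_
    rw [sum_range_one, cf_zero, Rat.cast_zero, zero_div, sub_zero]
    exact hsum.hasSum
  have hT := hasSum_T n (by omega) w
  have hlim : Tendsto (hr (ar n w)) atTop (𝓝 (dser (cf 1 w) n)) := by
    refine tendsto_of_tendsto_of_tendsto_of_le_of_le hF.tendsto_sum_nat tendsto_const_nhds
      (fun m => ?_) (fun m => ?_)
    · have h1 : ∑ K ∈ range m, (cf 1 w K : ℝ) / (K : ℝ) ^ n =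
          ∑ K ∈ range m, (T 1 w m K : ℝ) / (K : ℝ) ^ n := by
        refine sum_congr rfl fun K hK => ?_
        rw [mem_range] at hK
        rw [cf, ← T_stab 1 w hw (by omega : K + 1 ≤ m)]
      show ∑ K ∈ range m, (cf 1 w K : ℝ) / (K : ℝ) ^ n ≤ hr (ar n w) m
      rw [h1]
      exact sum_le_hasSum _ (fun K _ => div_nonneg (by exact_mod_cast T_nonneg _ _ _ _)
        (by positivity)) (hT m)
    · refine hasSum_le (fun K => ?_) (hT m) hF
      refine div_le_div_of_nonneg_right ?_ (by positivity)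
      exact Rat.cast_le.2 (T_le_cf w hw 1 m K)
  exact tendsto_nhds_unique hlim (tendsto_ar _ hw (by omega))

/-- the stuffle product of two words -/
def st : List (ℕ × ℕ) → List (ℕ × ℕ) → List (List (ℕ × ℕ))
  | [], v => [v]
  | x :: u, [] => [x :: u]
  | x :: u, y :: v => (st u (y :: v)).map (x :: ·) ++ (st (x :: u) v).map (y :: ·) ++
      (st u v).map ((x + y) :: ·)
termination_by u v => u.length + v.length

lemma st_length (u v : List (ℕ × ℕ)) : ∀ w ∈ st u v, w.length ≤ u.length + v.length := by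
  induction u, v using st.induct with
  | case1 v =>
    intro w hw
    rw [st, List.mem_singleton] at hw
    subst hw
    simp
  | case2 x u =>
    intro w hw
    rw [st, List.mem_singleton] at hw
    subst hw
    simp
  | case3 x u y v ih1 ih2 ih3 =>
    intro w hw
    rw [st, List.mem_append, List.mem_append, List.mem_map, List.mem_map, List.mem_map] at hw
    rcases hw with (⟨w', hw', rfl⟩ | ⟨w', hw', rfl⟩) | ⟨w', hw', rfl⟩
    · have := ih1 w' hw'
      simp only [List.length_cons] at this ⊢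
      omega
    · have := ih2 w' hw'
      simp only [List.length_cons] at this ⊢
      omega
    · have := ih3 w' hw'
      simp only [List.length_cons] at this ⊢
      omega

lemma OK_cons {x : ℕ × ℕ} {l : List (ℕ × ℕ)} (hx : x.1 = 0 → 1 ≤ x.2) (hl : OK l) :
    OK (x :: l) := by
  intro y hy
  rcases List.mem_cons.1 hy with rfl | hy
  · exact hx
  · exact hl y hy

lemma st_OK (u v : List (ℕ × ℕ)) : OK u → OK v → ∀ w ∈ st u v, OK w := by
  induction u, v using st.induct with
  | case1 v =>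
    intro _ hv w hw
    rw [st, List.mem_singleton] at hw
    subst hw
    exact hv
  | case2 x u =>
    intro hu _ w hw
    rw [st, List.mem_singleton] at hw
    subst hw
    exact hu
  | case3 x u y v ih1 ih2 ih3 =>
    intro hu hv w hw
    rw [st, List.mem_append, List.mem_append, List.mem_map, List.mem_map, List.mem_map] at hw
    rcases hw with (⟨w', hw', rfl⟩ | ⟨w', hw', rfl⟩) | ⟨w', hw', rfl⟩
    · exact OK_cons (hu x List.mem_cons_self) (ih1 hu.tail hv w' hw')
    · exact OK_cons (hv y List.mem_cons_self) (ih2 hu hv.tail w' hw')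
    · refine OK_cons (fun h => ?_) (ih3 hu.tail hv.tail w' hw')
      rw [Prod.fst_add] at h
      rw [Prod.snd_add]
      have := hu x List.mem_cons_self (by omega)
      omega

lemma st_HP (u v : List (ℕ × ℕ)) (hu : HP u) (hv : HP v) : ∀ w ∈ st u v, HP w := by
  intro w hw
  cases u with
  | nil =>
    rw [st, List.mem_singleton] at hw
    subst hw
    exact hv
  | cons x u =>
    cases v with
    | nil =>
      rw [st, List.mem_singleton] at hw
      subst hw
      exact hu
    | cons y v =>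
      rw [st, List.mem_append, List.mem_append, List.mem_map, List.mem_map, List.mem_map] at hw
      rcases hw with (⟨w', -, rfl⟩ | ⟨w', -, rfl⟩) | ⟨w', -, rfl⟩
      · exact hu
      · exact hv
      · show 1 ≤ (x + y).1
        have h1 : 1 ≤ x.1 := hu
        rw [Prod.fst_add]
        omega

lemma hr_map (n : ℕ) (x : ℕ × ℕ) (L : List (List (ℕ × ℕ))) (m : ℕ) :
    ((L.map (x :: ·)).map fun w => hr (ar n w) m).sum =
      ∑ j ∈ Ico 1 m, (L.map fun w => hr (ar n w) j).sum / (j : ℝ) ^ (x.1 * n + x.2) := by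
  rw [List.map_map]
  have h1 : ((fun w => hr (ar n w) m) ∘ (x :: ·)) = fun w =>
      ∑ j ∈ Ico 1 m, hr (ar n w) j / (j : ℝ) ^ (x.1 * n + x.2) := by
    funext w
    simp only [Function.comp]
    rw [ar_cons, hr_cons]
  rw [h1, list_swap]
  exact sum_congr rfl fun j _ => list_div _ _ _

/-- **the stuffle product of truncated values** -/
theorem hr_mul (n : ℕ) (u v : List (ℕ × ℕ)) : ∀ m,
    hr (ar n u) m * hr (ar n v) m = ((st u v).map fun w => hr (ar n w) m).sum := by
  induction u, v using st.induct with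
  | case1 v =>
    intro m
    rw [st, ar_nil, hr_nil, one_mul]
    simp
  | case2 x u =>
    intro m
    rw [st, ar_nil, hr_nil, mul_one]
    simp
  | case3 x u y v ih1 ih2 ih3 =>
    intro m
    rw [st, List.map_append, List.map_append, List.sum_append, List.sum_append, hr_map, hr_map,
      hr_map]
    rw [ar_cons, ar_cons, hr_cons, hr_cons, prod_Ico]
    refine congrArg₂ _ (congrArg₂ _ ?_ ?_) ?_
    · refine sum_congr rfl fun j _ => ?_
      rw [← ih1, ar_cons, hr_cons]
      ring
    · refine sum_congr rfl fun j _ => ?_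
      rw [← ih2, ar_cons, hr_cons]
      ring
    · refine sum_congr rfl fun j _ => ?_
      rw [← ih3]
      have h1 : (x + y).1 * n + (x + y).2 = (x.1 * n + x.2) + (y.1 * n + y.2) := by
        rw [Prod.fst_add, Prod.snd_add]
        ring
      rw [h1, div_mul_div_comm, ← pow_add]

/-- **the stuffle product** -/
theorem mz_mul {n : ℕ} (u v : List (ℕ × ℕ)) (hu : HP u) (hv : HP v)
    (hn : u.length + v.length + 1 ≤ n) :
    mz (ar n u) * mz (ar n v) = ((st u v).map fun w => mz (ar n w)).sum := by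
  have h1 := (tendsto_ar u hu (n := n) (by omega)).mul (tendsto_ar v hv (n := n) (by omega))
  have h2 : Tendsto (fun m => ((st u v).map fun w => hr (ar n w) m).sum) atTop
      (𝓝 ((st u v).map fun w => mz (ar n w)).sum) := by
    have h3 : ∀ w ∈ st u v, HP w ∧ w.length + 1 ≤ n := fun w hw =>
      ⟨st_HP u v hu hv w hw, by have := st_length u v w hw; omega⟩
    revert h3
    generalize st u v = L
    intro h3
    induction L with
    | nil => simp
    | cons w L ih =>
      simp only [List.map_cons, List.sum_cons]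
      have h4 := h3 w List.mem_cons_self
      exact (tendsto_ar w h4.1 h4.2).add (ih fun w' hw' => h3 w' (List.mem_cons_of_mem _ hw'))
  refine tendsto_nhds_unique h1 (h2.congr fun m => ?_)
  rw [hr_mul]

/-- the stuffle product of a list of words -/
def stl : List (List (ℕ × ℕ)) → List (List (ℕ × ℕ))
  | [] => [[]]
  | u :: M => (stl M).flatMap (st u)

lemma stl_ok (M : List (List (ℕ × ℕ))) (hM : ∀ u ∈ M, HP u ∧ OK u) :
    ∀ w ∈ stl M, HP w ∧ OK w ∧ w.length ≤ (M.map List.length).sum := by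
  induction M with
  | nil =>
    intro w hw
    rw [stl, List.mem_singleton] at hw
    subst hw
    exact ⟨trivial, fun x hx => absurd hx List.not_mem_nil, Nat.zero_le _⟩
  | cons u M ih =>
    intro w hw
    rw [stl, List.mem_flatMap] at hw
    obtain ⟨v, hv, hw⟩ := hw
    have h1 := ih (fun u hu => hM u (List.mem_cons_of_mem _ hu)) v hv
    have h2 := hM u List.mem_cons_self
    refine ⟨st_HP u v h2.1 h1.1 w hw, st_OK u v h2.2 h1.2.1 w hw, ?_⟩
    rw [List.map_cons, List.sum_cons]
    have := st_length u v w hw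
    omega

theorem mz_prod {n : ℕ} (M : List (List (ℕ × ℕ))) (hM : ∀ u ∈ M, HP u ∧ OK u)
    (hn : (M.map List.length).sum + 1 ≤ n) :
    (M.map fun u => mz (ar n u)).prod = ((stl M).map fun w => mz (ar n w)).sum := by
  induction M with
  | nil =>
    rw [stl]
    simp [ar_nil, mz]
  | cons u M ih =>
    rw [List.map_cons, List.sum_cons] at hn
    have hM' := fun u hu => hM u (List.mem_cons_of_mem _ hu)
    rw [List.map_cons, List.prod_cons, ih hM' (by omega), stl]
    have h3 : ∀ v ∈ stl M, HP v ∧ u.length + v.length + 1 ≤ n := fun v hv => by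
      have h4 := stl_ok M hM' v hv
      exact ⟨h4.1, by omega⟩
    have hu := (hM u List.mem_cons_self).1
    clear ih
    revert h3
    generalize stl M = L
    intro h3
    induction L with
    | nil => simp
    | cons v L ih2 =>
      have h5 := h3 v List.mem_cons_self
      rw [List.map_cons, List.sum_cons, mul_add, mz_mul u v hu h5.1 h5.2, List.flatMap_cons,
        List.map_append, List.sum_append, ih2 fun v' hv' => h3 v' (List.mem_cons_of_mem _ hv')]

end Pool.Agent.TH507.WG
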