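import Mathlib
import Pool.Agent.TH507.WG.F
import Pool.Agent.TH883.Zg.Cop

/-!
# Linear forms of exponential height in multiple zeta values with growing first argument
-/

set_option autoImplicit false

namespace Pool.Agent.TH507.WG

open Finset Filter Topology
open Pool.Agent.TH507.ZS (dser)
open Pool.Agent.TH883.Zg (main_const)
open Pool.Agent.TH507.WD (mz)

theorem ind_main (Λ : Finset (List (ℕ × ℕ))) (hnil : [] ∉ Λ) (hHP : ∀ w ∈ Λ, HP w)
    (hOK : ∀ w ∈ Λ, OK w) (C : ℝ) :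
    ∃ B : ℝ, 1 < B ∧ ∃ n0 : ℕ, ∀ n : ℕ, n0 ≤ n → ∀ (a : ℤ) (c : List (ℕ × ℕ) → ℤ),
      (∀ w ∈ Λ, |(c w : ℝ)| ≤ C ^ n) → (a ≠ 0 ∨ ∃ w ∈ Λ, c w ≠ 0) →
      (B ^ n)⁻¹ < |(a : ℝ) + ∑ w ∈ Λ, (c w : ℝ) * mz (ar n w)| := by
  set A : ℕ := ∑ w ∈ Λ, (2 ^ w.length + w.length) with hA
  have hAw : ∀ w ∈ Λ, 2 ^ w.length + w.length ≤ A := fun w hw =>
    single_le_sum (f := fun w : List (ℕ × ℕ) => 2 ^ w.length + w.length)
      (fun _ _ => Nat.zero_le _) hw
  obtain ⟨B, hB, n0, hmain⟩ := main_const (J := Λ) (fun w => cf 1 w.1) A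
    (fun w k hk => cf_bd w.1 ((Nat.le_add_right _ _).trans (hAw w.1 w.2))
      ((Nat.le_add_left _ _).trans (hAw w.1 w.2)) k hk)
    (fun N X hN y hy => by
      have h1 := cf1_ind Λ hnil hHP hOK (fun w => if hw : w ∈ Λ then y ⟨w, hw⟩ else 0) N X hN (by
        intro K hK hKc
        rw [← hy K hK hKc, ← sum_coe_sort Λ]
        refine sum_congr rfl fun w _ => ?_
        rw [dif_pos w.2])
      funext w
      have h2 := h1 w.1 w.2
      simp only [w.2, dite_true] at h2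
      exact h2) C
  refine ⟨B, hB, n0 + A + 2, fun n hn a c hc hw => ?_⟩
  have h1 := hmain n (by omega) a (fun w => c w.1) (by
    rcases hw with h | ⟨w, hw, h⟩
    · exact Or.inl h
    · exact Or.inr fun h0 => h (congrFun h0 ⟨w, hw⟩)) (fun w => hc w.1 w.2)
  have h3 : ∀ w : Λ, dser (cf 1 w.1) n = mz (ar n w.1) := fun w =>
    dser_eq_mz w.1 (hHP w.1 w.2) (A := A) ((Nat.le_add_right _ _).trans (hAw w.1 w.2))
      ((Nat.le_add_left _ _).trans (hAw w.1 w.2)) (by omega)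
  simp only [h3] at h1
  rw [← sum_coe_sort Λ]
  exact h1

end Pool.Agent.TH507.WG
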